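import Pool.Agent.Run7.h582.DS.Str
import Pool.Agent.Results.MP_8dbee4_ag.AllPrimes

/-!
# MP_8dbee4_ag: the degrees of curves on very general complete intersections whose degrees are terms of strong divisibility
# sequences

Let `X ⊆ ℙ^(n+r)` be a very general complete intersection of `r` hypersurfaces of degrees `d_1, …, d_r`,
`dim X = n`. The question is whether `d_1 ⋯ d_r` divides the degrees of all curves on `X` if all `d_i`
are large. Here the tuple `d_1, …, d_r` contains multiples of consecutive terms `u(a + 1), …, u(a + R)` of a sequence `u`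
with `gcd(u(i), u(j)) = u(gcd(i, j))` (a strong divisibility sequence), or several disjoint runs of this kind, of different
sequences and at arbitrary places `a`; so the degrees can be arbitrarily large, and there is no condition on the other degrees.
Examples: the integers `u(k) = k`; `u(k) = g ^ k - 1`; the numbers of Fibonacci; the iterates `|f(f(…f(0)))|` of any
polynomial `f` with integral coefficients (these can grow doubly exponentially). We show:

1. With `B(u, R) = u(1) u(2) ⋯ u(R)`: if there are `2 n - 1` disjoint runs, then every common divisor `Q` of the `B(u_j, R_j)`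
   divides the degrees of ALL curves on `X` (`n` runs are enough if all prime factors of `Q` are larger than `n`). A version
   with exponents: all `Q` with `p ^ (m v_p(Q) + k (m ^ 2 - 1)) ∣ ∏ B(u_j, R_j)`, `m = n + ⌊(n - 1) / (p - 1)⌋`,
   `k = ⌊log_p n⌋`, for all primes `p ∣ Q` (for `p > n` one has `m = n`, `k = 0`).
2. So if the degrees are `r ≥ (2 n - 1) R` consecutive terms `u(a + 1), …, u(a + r)`, or multiples of them, then the FULL
   product `u(1) u(2) ⋯ u(R)` divides the degrees of all curves on `X`, for all `a`: `R!` for consecutive degrees, and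
   `(g - 1)(g ^ 2 - 1) ⋯ (g ^ R - 1)` for the degrees `g ^ (a + 1) - 1, …, g ^ (a + r) - 1`.
3. Size: for `r = (2 n - 1) R` consecutive degrees `≤ R ^ c` the conjectured divisor `d_1 ⋯ d_r` is at most
   `(R!) ^ (2 c (2 n - 1))`. For the degrees `g ^ (a + i) - 1`, `i ≤ r`, `a ≤ c r`, it is at most
   `((g - 1)(g ^ 2 - 1) ⋯ (g ^ R - 1)) ^ (4 (c + 1) (2 n - 1) ^ 2)`: a fixed power of the conjectured divisor divides
   the degrees of all curves already if the number `r` of the equations is only LOGARITHMIC in the size of the degrees.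

The starting results of this page are about the degree tuples whose product is divisible by high powers (`AllPrimes`, used
here) and about almost all tuples of degrees which are at most a power of `r` (`AlmostAllDegrees`). New: the terms of a strong
divisibility sequence divisible by a prime power `q` are those with an index divisible by the rank of `q`, so the product of any
`R` consecutive terms is divisible by `B(u, R)`, and the runs are the groups in `AllPrimes`.
-/

set_option autoImplicit false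

namespace Pool.Agent.Results.MP_8dbee4_ag.DivisibilitySequences

open Finset

/-- the Hilbert function of the ideal `I` of `ℂ[x_0, …, x_m]` -/
noncomputable def hilbert {m : ℕ} (I : Ideal (MvPolynomial (Fin (m + 1)) ℂ)) (k : ℕ) : ℕ :=
  Module.finrank ℂ (Submodule.map (Ideal.Quotient.mkₐ ℂ I).toLinearMap
    (MvPolynomial.homogeneousSubmodule (Fin (m + 1)) ℂ k))

/-- `I` is the ideal of an integral curve in `ℙ^m`: a homogeneous prime ideal with `dim ℂ[x] / I = 2` -/
def IsCurve {m : ℕ} (I : Ideal (MvPolynomial (Fin (m + 1)) ℂ)) : Prop :=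
  (∀ p ∈ I, ∀ k : ℕ, MvPolynomial.homogeneousComponent k p ∈ I) ∧ I.IsPrime ∧
    ringKrullDim (MvPolynomial (Fin (m + 1)) ℂ ⧸ I) = 2

/-- `Q` divides the degree of the curve `I`: it divides the difference of the values of the Hilbert
function at `k + 1` and at `k` for all large `k` -/
def DividesDegree {m : ℕ} (Q : ℕ) (I : Ideal (MvPolynomial (Fin (m + 1)) ℂ)) : Prop :=
  ∃ K : ℕ, ∀ k : ℕ, K ≤ k → (Q : ℤ) ∣ (hilbert I (k + 1) : ℤ) - (hilbert I k : ℤ)

/-- The number `Q` divides the degree of every curve on a very general complete intersection of degrees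
`d_1, …, d_r` in `ℙ^(n+r)` over `ℂ`: there are countably many nonzero polynomials `bad j` in the
coefficients of `r` forms of these degrees such that for all forms `f_1, …, f_r` at which no `bad j`
vanishes `Q` divides the degree of every integral curve on `f_1 = ⋯ = f_r = 0`. -/
def DividesCurveDegrees (n r : ℕ) (d : Fin r → ℕ) (Q : ℕ) : Prop :=
  ∃ bad : ℕ → MvPolynomial (Σ i : Fin r, {μ : Fin (n + r + 1) →₀ ℕ // μ.degree = d i}) ℂ,
    (∀ j, bad j ≠ 0) ∧
    ∀ f : Fin r → MvPolynomial (Fin (n + r + 1)) ℂ,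
      (∀ i, f i ∈ MvPolynomial.homogeneousSubmodule (Fin (n + r + 1)) ℂ (d i)) →
      (∀ j, MvPolynomial.eval (fun x => MvPolynomial.coeff x.2.1 (f x.1)) (bad j) ≠ 0) →
      ∀ I : Ideal (MvPolynomial (Fin (n + r + 1)) ℂ), IsCurve I → (∀ i, f i ∈ I) →
        DividesDegree Q I

/-- `u(1), u(2), …` is a strong divisibility sequence of positive integers: `gcd(u(i), u(j)) = u(gcd(i, j))`. -/
def StrongDiv (u : ℕ → ℕ) : Prop :=
  (∀ k, 1 ≤ k → 1 ≤ u k) ∧ ∀ i j, 1 ≤ i → 1 ≤ j → Nat.gcd (u i) (u j) = u (Nat.gcd i j)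

/-- the product of the first `R` terms -/
def B (u : ℕ → ℕ) (R : ℕ) : ℕ := ∏ k ∈ Icc 1 R, u k

/-- The tuple `d` contains `t` disjoint runs: for `j < t` there are `R j` of the `d_i` which are multiples of consecutive
terms `u_j(a_j + 1), …, u_j(a_j + R_j)` (all the indices `φ(j, i)` are different). -/
def HasRuns {r t : ℕ} (d : Fin r → ℕ) (u : Fin t → ℕ → ℕ) (R : Fin t → ℕ) : Prop :=
  ∃ (a : Fin t → ℕ) (φ : (Σ j : Fin t, Fin (R j)) → Fin r), Function.Injective φ ∧
    ∀ (j : Fin t) (i : Fin (R j)), u j (a j + i + 1) ∣ d (φ ⟨j, i⟩)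

/-- Tuples with disjoint runs of strong divisibility sequences. -/
def Runs : Prop := ∀ (n r : ℕ), 1 ≤ n → ∀ (d : Fin r → ℕ) (t : ℕ) (u : Fin t → ℕ → ℕ) (R : Fin t → ℕ),
  (∀ j, StrongDiv (u j)) → HasRuns d u R → ∀ Q : ℕ, 0 < Q →
    ((∃ l : ℕ, 2 ≤ l ∧ (∀ p : ℕ, p.Prime → p ∣ Q → l ≤ p) ∧ (n - 1) * l + 1 ≤ t * (l - 1) ∧ ∀ j, Q ∣ B (u j) (R j)) ∨
      (∀ p : ℕ, p.Prime → p ∣ Q → p ^ ((n + (n - 1) / (p - 1)) * Q.factorization p +
        Nat.log p n * ((n + (n - 1) / (p - 1)) ^ 2 - 1)) ∣ ∏ j, B (u j) (R j))) →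
    DividesCurveDegrees n r d Q

/-- Consecutive terms of one strong divisibility sequence: `Q` divides the degrees of all the curves if it divides
`u(1) ⋯ u(R)` and if there are at least `(2 n - 1) R` equations, or at least `n R` and all prime factors of `Q` are larger
than `n`. -/
def Consecutive : Prop := ∀ (n r : ℕ), 1 ≤ n → ∀ (d : Fin r → ℕ) (u : ℕ → ℕ), StrongDiv u → ∀ a R : ℕ,
  (∀ i : Fin r, u (a + i + 1) ∣ d i) → ∀ Q : ℕ, Q ∣ B u R →
    ((2 * n - 1) * R ≤ r ∨ (n * R ≤ r ∧ ∀ p : ℕ, p.Prime → p ∣ Q → n < p)) → DividesCurveDegrees n r d Q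

/-- Examples of strong divisibility sequences: the integers, `g ^ k - 1`, the numbers of Fibonacci, the iterates of a
polynomial at `0`. -/
def Examples : Prop := StrongDiv (fun k => k) ∧ (∀ g : ℕ, 2 ≤ g → StrongDiv (fun k => g ^ k - 1)) ∧ StrongDiv Nat.fib ∧
  ∀ f : Polynomial ℤ, (∀ k, 1 ≤ k → (fun y => f.eval y)^[k] 0 ≠ 0) → StrongDiv (fun k => ((fun y => f.eval y)^[k] 0).natAbs)

/-- The product of `(2 n - 1) R` consecutive integers `≤ R ^ c` is at most `(R!) ^ (2 c (2 n - 1))`; the product of `r =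
(2 n - 1) R` consecutive numbers `g ^ (a + i) - 1`, `a ≤ c r`, is at most
`((g - 1) ⋯ (g ^ R - 1)) ^ (4 (c + 1) (2 n - 1) ^ 2)`. -/
def Size : Prop := ∀ n R a c : ℕ, 1 ≤ n → 2 ≤ R →
  (a + (2 * n - 1) * R ≤ R ^ c →
    ∏ i ∈ range ((2 * n - 1) * R), (a + i + 1) ≤ B (fun k => k) R ^ (2 * c * (2 * n - 1))) ∧
  (a ≤ c * ((2 * n - 1) * R) → ∀ g : ℕ, 2 ≤ g →
    ∏ i ∈ range ((2 * n - 1) * R), (g ^ (a + i + 1) - 1) ≤ B (fun k => g ^ k - 1) R ^ (4 * (c + 1) * (2 * n - 1) ^ 2))

open Classical in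
theorem runs : Runs := by
  intro n r hn d t u R hu hR Q hQ h
  obtain ⟨a, φ, hφ, hd⟩ := hR
  have hrun : ∀ j, B (u j) (R j) ∣ ∏ i : Fin (R j), d (φ ⟨j, i⟩) := by
    intro j
    refine (Pool.Agent.Run7.h582.DS.StrongDiv.run' (hu j) (a j) (R j)).trans ?_
    exact Finset.prod_dvd_prod_of_dvd _ _ fun i _ => hd j i
  obtain ⟨bad, hbad, hmain⟩ := Pool.Agent.Results.MP_8dbee4_ag.AllPrimes.result n r hn d
  refine ⟨bad, hbad, fun f hf hfb I hI hfI => ?_⟩
  rcases h with ⟨l, hl, hlp, hlt, hQB⟩ | h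
  · have h1 : 1 ≤ t := by
      rcases Nat.eq_zero_or_pos t with h | h
      · subst h
        omega
      · exact h
    rcases Nat.eq_zero_or_pos r with hr | hr
    · subst hr
      have h2 : Q ∣ B (u ⟨0, h1⟩) (R ⟨0, h1⟩) := hQB _
      have h3 : R ⟨0, h1⟩ = 0 := by
        rcases Nat.eq_zero_or_pos (R ⟨0, h1⟩) with h | h
        · exact h
        · exact (φ ⟨⟨0, h1⟩, ⟨0, h⟩⟩).elim0
      rw [h3] at h2
      have h4 : Q = 1 := Nat.dvd_one.1 h2
      rw [h4]
      exact ⟨0, fun k _ => by push_cast; exact one_dvd _⟩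
    · refine hmain f hf hfb I hI.1 hI.2.1 hI.2.2 hfI l Q hl hQ hlp (Or.inr (Or.inl ⟨t, n + 1, fun _ => 0,
        fun _ => ⟨0, hr⟩, fun i => if h : ∃ x : Σ j : Fin t, Fin (R j), φ x = i then some h.choose.1 else none, ?_, ?_, ?_,
        fun b hb => absurd rfl hb, fun b b' hb => absurd rfl hb, ?_⟩))
      · obtain ⟨l', rfl⟩ : ∃ l', l = l' + 2 := ⟨l - 2, by omega⟩
        obtain ⟨n', rfl⟩ : ∃ n', n = n' + 1 := ⟨n - 1, by omega⟩
        have e1 : l' + 2 - 1 = l' + 1 := by omega
        have e2 : n' + 1 - 1 = n' := by omega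
        rw [e1, e2] at hlt
        by_contra hcon
        have h2 : t ≤ n' := by omega
        have h3 : t * (l' + 1) ≤ n' * (l' + 1) := Nat.mul_le_mul_right _ h2
        nlinarith
      · obtain ⟨l', rfl⟩ : ∃ l', l = l' + 2 := ⟨l - 2, by omega⟩
        obtain ⟨n', rfl⟩ : ∃ n', n = n' + 1 := ⟨n - 1, by omega⟩
        have e1 : l' + 2 - 1 = l' + 1 := by omega
        have e2 : n' + 1 - 1 = n' := by omega
        rw [e1, e2] at hlt
        have h2 : n' < t := by
          by_contra hcon
          have h3 : t * (l' + 1) ≤ n' * (l' + 1) := Nat.mul_le_mul_right _ (by omega)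
          nlinarith
        obtain ⟨s, rfl⟩ : ∃ s, t = n' + s := ⟨t - n', by omega⟩
        have e3 : n' + s + 2 - (n' + 1 + 1) = s := by omega
        rw [e1, e3]
        nlinarith
      · simp
      · intro c
        refine (hQB c).trans ((hrun c).trans ?_)
        have hinj : Function.Injective fun i : Fin (R c) => φ ⟨c, i⟩ := by
          intro i i' h
          have := hφ h
          simpa using this
        have e1 : ∏ i : Fin (R c), d (φ ⟨c, i⟩) = ∏ i ∈ univ.image (fun i : Fin (R c) => φ ⟨c, i⟩), d i :=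
          (Finset.prod_image fun i _ i' _ h => hinj h).symm
        rw [e1]
        refine Finset.prod_dvd_prod_of_subset _ _ _ ?_
        intro x hx
        obtain ⟨i, _, rfl⟩ := mem_image.1 hx
        rw [mem_filter]
        refine ⟨mem_univ _, ?_⟩
        have hex : ∃ x : Σ j : Fin t, Fin (R j), φ x = φ ⟨c, i⟩ := ⟨_, rfl⟩
        show (if h : ∃ x : Σ j : Fin t, Fin (R j), φ x = φ ⟨c, i⟩ then some h.choose.1 else none) = some c
        rw [dif_pos hex]
        have h2 := hφ hex.choose_spec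
        rw [h2]
  · refine hmain f hf hfb I hI.1 hI.2.1 hI.2.2 hfI 2 Q le_rfl hQ (fun p hp _ => hp.two_le) (Or.inl fun p hp hpQ => ?_)
    refine (h p hp hpQ).trans ?_
    have h2 : ∏ j, B (u j) (R j) ∣ ∏ j : Fin t, ∏ i : Fin (R j), d (φ ⟨j, i⟩) :=
      Finset.prod_dvd_prod_of_dvd _ _ fun j _ => hrun j
    refine h2.trans ?_
    rw [← Fintype.prod_sigma' (fun (j : Fin t) (i : Fin (R j)) => d (φ ⟨j, i⟩))]
    have e1 : ∏ x : Σ j : Fin t, Fin (R j), d (φ ⟨x.1, x.2⟩) = ∏ i ∈ univ.image φ, d i :=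
      (Finset.prod_image fun i _ i' _ h => hφ h).symm
    rw [e1]
    exact Finset.prod_dvd_prod_of_subset _ _ _ (Finset.subset_univ _)

theorem consecutive : Consecutive := by
  intro n r hn d u hu a R hd Q hQ h
  have hB : 0 < B u R := Finset.prod_pos fun k hk => hu.1 k (mem_Icc.1 hk).1
  have hQ0 : 0 < Q := Nat.pos_of_dvd_of_pos hQ hB
  have key : ∀ t : ℕ, t * R ≤ r → HasRuns d (fun _ : Fin t => u) (fun _ => R) := by
    intro t ht
    have hlt : ∀ (j : Fin t) (i : Fin R), (j : ℕ) * R + i < r := by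
      intro j i
      have h1 : ((j : ℕ) + 1) * R ≤ t * R := Nat.mul_le_mul_right _ j.2
      have h2 := i.2
      nlinarith
    refine ⟨fun j => a + j * R, fun x => ⟨x.1 * R + x.2, hlt x.1 x.2⟩, ?_, fun j i => ?_⟩
    · rintro ⟨j, i⟩ ⟨j', i'⟩ h
      simp only [Fin.mk.injEq] at h
      have hR0 : 0 < R := Fin.pos i
      have h1 : (j : ℕ) = j' := by
        have e1 : ((j : ℕ) * R + i) / R = j := by
          rw [Nat.mul_comm, Nat.mul_add_div hR0, Nat.div_eq_of_lt i.2, Nat.add_zero]
        have e2 : ((j' : ℕ) * R + i') / R = j' := by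
          rw [Nat.mul_comm, Nat.mul_add_div hR0, Nat.div_eq_of_lt i'.2, Nat.add_zero]
        rw [← e1, h, e2]
      have h2 : j = j' := Fin.ext h1
      subst h2
      have h3 : (i : ℕ) = i' := by omega
      have h4 : i = i' := Fin.ext h3
      rw [h4]
    · have h1 := hd ⟨j * R + i, hlt j i⟩
      have e : a + j * R + i + 1 = a + (j * R + i) + 1 := by ring
      show u (a + j * R + i + 1) ∣ _
      rw [e]
      exact h1
  rcases h with h | ⟨h, hp⟩
  · refine runs n r hn d (2 * n - 1) _ _ (fun _ => hu) (key _ h) Q hQ0 (Or.inl ⟨2, le_rfl, fun p hp _ => hp.two_le, ?_,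
      fun _ => hQ⟩)
    omega
  · refine runs n r hn d n _ _ (fun _ => hu) (key _ h) Q hQ0 (Or.inl ⟨n + 1, by omega, fun p hpp hpQ => hp p hpp hpQ, ?_,
      fun _ => hQ⟩)
    obtain ⟨n', rfl⟩ : ∃ n', n = n' + 1 := ⟨n - 1, by omega⟩
    have e1 : n' + 1 - 1 = n' := by omega
    have e2 : n' + 1 + 1 - 1 = n' + 1 := by omega
    rw [e1, e2]
    nlinarith

/-- **Curves on very general complete intersections of degrees in strong divisibility sequences.** -/
theorem result : Runs ∧ Consecutive ∧ Examples ∧ Size :=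
  ⟨runs, consecutive, ⟨Pool.Agent.Run7.h582.DS.strong_id, Pool.Agent.Run7.h582.DS.strong_pow,
    Pool.Agent.Run7.h582.DS.strong_fib, Pool.Agent.Run7.h582.DS.strong_iter⟩,
    fun n R a c _ hR => ⟨Pool.Agent.Run7.h582.DS.size_id n R a c,
      fun ha g hg => Pool.Agent.Run7.h582.DS.size_pow g n R a c hg hR ha⟩⟩

end Pool.Agent.Results.MP_8dbee4_ag.DivisibilitySequences
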