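import Pool.Agent.Run7.h145.PD.A
import Pool.Agent.Results.MP_8dbee4_ag.AllPrimes

/-!
# MP_8dbee4_ag: the degrees of curves on very general complete intersections of arbitrary degrees

Let `X ⊆ ℙ^(n+r)` be a very general complete intersection of `r` hypersurfaces of degrees `d_1, …, d_r`,
`dim X = n`. The question is whether `d_1 ⋯ d_r` divides the degrees of all curves on `X` if all `d_i`
are large. Let `D = d_1 ⋯ d_r`. We show:

1. (`Every`) For EVERY tuple of positive degrees there is a number `Q` which divides the degrees of all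
   curves on `X` and such that `D` divides `Q ^ (2 n - 1) rad(D) ^ (4 n ^ 3)`; for the primes `p > n` even
   `v_p(D) ≤ n v_p(Q) + n - 1`. If the prime factors of `D` are at most `y` and `D ≥ 4 ^ (8 n ^ 4 y)`, then
   `D ≤ Q ^ (2 n)`.
2. (`Bounded`) So for EVERY tuple of degrees `2 ≤ d_i ≤ N` with `N ≤ r / (16 n ^ 4)` the degrees of all curves
   on `X` are divisible by a number `Q` with `d_1 ⋯ d_r ≤ Q ^ (2 n)`: there is no exceptional set of tuples.

The starting results of this page are about the degree tuples whose product is divisible by high powers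
(`AllPrimes`, used here) and about almost all tuples of degrees which are at most a power of `r`
(`AlmostAllDegrees`). New: every tuple, in terms of the radical of `D`.
-/

set_option autoImplicit false

namespace Pool.Agent.Results.MP_8dbee4_ag.EveryTuple

open Finset

/-- the Hilbert function of the ideal `I` of `ℂ[x_0, …, x_m]` -/
noncomputable def hilbert {m : ℕ} (I : Ideal (MvPolynomial (Fin (m + 1)) ℂ)) (k : ℕ) : ℕ :=
  Module.finrank ℂ (Submodule.map (Ideal.Quotient.mkₐ ℂ I).toLinearMap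
    (MvPolynomial.homogeneousSubmodule (Fin (m + 1)) ℂ k))

/-- `I` is the ideal of an integral curve in `ℙ^m`: a homogeneous prime ideal with `dim ℂ[x] / I = 2` -/
def IsCurve {m : ℕ} (I : Ideal (MvPolynomial (Fin (m + 1)) ℂ)) : Prop :=
  (∀ p ∈ I, ∀ k : ℕ, MvPolynomial.homogeneousComponent k p ∈ I) ∧ I.IsPrime ∧
    ringKrullDim (MvPolynomial (Fin (m + 1)) ℂ ⧸ I) = 2

/-- `Q` divides the degree of the curve `I`: it divides the difference of the values of the Hilbert
function at `k + 1` and at `k` for all large `k` -/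
def DividesDegree {m : ℕ} (Q : ℕ) (I : Ideal (MvPolynomial (Fin (m + 1)) ℂ)) : Prop :=
  ∃ K : ℕ, ∀ k : ℕ, K ≤ k → (Q : ℤ) ∣ (hilbert I (k + 1) : ℤ) - (hilbert I k : ℤ)

/-- The number `Q` divides the degree of every curve on a very general complete intersection of degrees
`d_1, …, d_r` in `ℙ^(n+r)` over `ℂ`: there are countably many nonzero polynomials `bad j` in the
coefficients of `r` forms of these degrees such that for all forms `f_1, …, f_r` at which no `bad j`
vanishes `Q` divides the degree of every integral curve on `f_1 = ⋯ = f_r = 0`. -/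
def DividesCurveDegrees (n r : ℕ) (d : Fin r → ℕ) (Q : ℕ) : Prop :=
  ∃ bad : ℕ → MvPolynomial (Σ i : Fin r, {μ : Fin (n + r + 1) →₀ ℕ // μ.degree = d i}) ℂ,
    (∀ j, bad j ≠ 0) ∧
    ∀ f : Fin r → MvPolynomial (Fin (n + r + 1)) ℂ,
      (∀ i, f i ∈ MvPolynomial.homogeneousSubmodule (Fin (n + r + 1)) ℂ (d i)) →
      (∀ j, MvPolynomial.eval (fun x => MvPolynomial.coeff x.2.1 (f x.1)) (bad j) ≠ 0) →
      ∀ I : Ideal (MvPolynomial (Fin (n + r + 1)) ℂ), IsCurve I → (∀ i, f i ∈ I) →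
        DividesDegree Q I

/-- EVERY tuple of positive degrees: with `D = d_1 ⋯ d_r` there is a common divisor `Q > 0` of the degrees of all the
curves with `D ∣ Q ^ (2 n - 1) rad(D) ^ (4 n ^ 3)`, with `v_p(D) ≤ n v_p(Q) + n - 1` for all `p > n`, and with
`D ≤ Q ^ (2 n)` if all prime factors of the degrees are at most `y` and `4 ^ (8 n ^ 4 y) ≤ D`. -/
def Every : Prop := ∀ (n r : ℕ), 1 ≤ n → ∀ d : Fin r → ℕ, (∀ i, 0 < d i) →
  ∃ Q : ℕ, 0 < Q ∧ DividesCurveDegrees n r d Q ∧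
    ∏ i, d i ∣ Q ^ (2 * n - 1) * (∏ p ∈ (∏ i, d i).primeFactors, p) ^ (4 * n ^ 3) ∧
    (∀ p : ℕ, n < p → (∏ i, d i).factorization p ≤ n * Q.factorization p + (n - 1)) ∧
    ∀ y : ℕ, (∀ p : ℕ, p.Prime → (∃ i, p ∣ d i) → p ≤ y) → 4 ^ (8 * n ^ 4 * y) ≤ ∏ i, d i →
      ∏ i, d i ≤ Q ^ (2 * n)

/-- EVERY tuple of degrees `2 ≤ d_i ≤ N`, where `16 n ^ 4 N ≤ r`: the degrees of all curves are divisible by a number
`Q` with `d_1 ⋯ d_r ≤ Q ^ (2 n)`. -/
def Bounded : Prop := ∀ (n r N : ℕ), 1 ≤ n → 16 * n ^ 4 * N ≤ r → ∀ d : Fin r → ℕ, (∀ i, 2 ≤ d i ∧ d i ≤ N) →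
  ∃ Q : ℕ, 0 < Q ∧ DividesCurveDegrees n r d Q ∧ ∏ i, d i ≤ Q ^ (2 * n)

/-- the criterion of the starting result, in terms of `D`: `QQ n D` divides the degrees if `D ∣ ∏ d_i` -/
lemma divides_QQ (n r : ℕ) (hn : 1 ≤ n) (d : Fin r → ℕ) (D : ℕ) (hD : D ≠ 0) (h : D ∣ ∏ i, d i) :
    DividesCurveDegrees n r d (Run7.h145.PD.QQ n D) := by
  obtain ⟨bad, hbad, hmain⟩ := Pool.Agent.Results.MP_8dbee4_ag.AllPrimes.result n r hn d
  refine ⟨bad, hbad, fun f hf hfb I hI hfI => ?_⟩
  refine hmain f hf hfb I hI.1 hI.2.1 hI.2.2 hfI 2 _ le_rfl (Run7.h145.PD.QQ_pos n D) (fun p hp _ => hp.two_le)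
    (Or.inl fun p hp hpQ => ?_)
  exact (Run7.h145.PD.crit hD hp hpQ).trans h

theorem every : Every := by
  intro n r hn d hd
  have hD : ∏ i, d i ≠ 0 := Finset.prod_ne_zero_iff.2 fun i _ => (hd i).ne'
  refine ⟨Run7.h145.PD.QQ n (∏ i, d i), Run7.h145.PD.QQ_pos _ _, divides_QQ n r hn d _ hD dvd_rfl,
    Run7.h145.PD.dvd_QQ hn hD, fun p hp => ?_, fun y hy hDy => ?_⟩
  · have h1 := Run7.h145.PD.fac_le (D := ∏ i, d i) hn p
    obtain ⟨h2, h3⟩ := Run7.h145.PD.large_prime hn hp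
    rw [h2, h3] at h1
    omega
  · refine Run7.h145.PD.large_QQ hn (fun p hp hpD => ?_) hDy
    obtain ⟨i, _, hi⟩ := (hp.prime.dvd_finsetProd_iff _).1 hpD
    exact hy p hp ⟨i, hi⟩

theorem bounded : Bounded := by
  intro n r N hn hr d hd
  obtain ⟨Q, hQ, h1, _, _, h2⟩ := every n r hn d fun i => by have := (hd i).1; omega
  refine ⟨Q, hQ, h1, h2 N (fun p hp ⟨i, hi⟩ => ?_) ?_⟩
  · exact (Nat.le_of_dvd (by have := (hd i).1; omega) hi).trans (hd i).2
  · calc 4 ^ (8 * n ^ 4 * N) = 2 ^ (16 * n ^ 4 * N) := by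
          rw [show (4 : ℕ) = 2 ^ 2 from rfl, ← pow_mul]; congr 1; ring
      _ ≤ 2 ^ r := Nat.pow_le_pow_right (by norm_num) hr
      _ = ∏ _i : Fin r, 2 := by simp
      _ ≤ ∏ i, d i := Finset.prod_le_prod' fun i _ => (hd i).1

/-- **Curves on very general complete intersections: every tuple of degrees.** -/
theorem result : Every ∧ Bounded := ⟨every, bounded⟩

end Pool.Agent.Results.MP_8dbee4_ag.EveryTuple
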