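import Pool.Agent.Run7.h145.PD.C
import Pool.Agent.Results.MP_8dbee4_ag.AllPrimes

/-!
# MP_8dbee4_ag: the degrees of curves on very general complete intersections whose degrees are values of a polynomial

Let `X ⊆ ℙ^(n+r)` be a very general complete intersection of `r` hypersurfaces of degrees `d_1, …, d_r`,
`dim X = n`. The question is whether `d_1 ⋯ d_r` divides the degrees of all curves on `X` if all `d_i`
are large. Let `f` be any polynomial with integral coefficients. We show:

1. (`Values`) If `f` is not constant, then for all `n, c` there is a number `M` such that for all large `R` and all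
   integers `a` with `|a| ≤ R ^ c` and all tuples which contain multiples of the `R` values `f(a + 1), …, f(a + R)`
   (there is no condition on the other degrees, and the values can have any size up to a power of `R`) the degrees of
   all curves on `X` are divisible by a number `Q` with `|f(a + 1) ⋯ f(a + R)| ≤ Q ^ M`. So for the complete
   intersections of degrees `|f(a + 1)|, …, |f(a + r)|` a fixed power of the conjectured divisor divides the degrees
   of all curves.
2. (`Divisors`) If `f` has a root modulo every prime factor of `q`, `(2 n - 1) q ≤ R`, and the tuple contains multiples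
   of `f(a + 1), …, f(a + R)`, then `q` divides the degrees of all curves on `X`.

The starting results of this page are about the degree tuples whose product is divisible by high powers
(`AllPrimes`, used here) and about almost all tuples of degrees which are at most a power of `r`
(`AlmostAllDegrees`); `DivisibilitySequences` is about the terms of strong divisibility sequences, and `EveryTuple`
about the tuples of degrees small in comparison with `r`. New: the values of polynomials. They are not divisibility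
sequences, and their prime factors can be large; the number of the values divisible by `p` is at least
`ρ_f(p) ⌊R / p⌋`, and the sum of `ρ_f(p) log p / p` over `p ≤ y` is `log y + O(1)` for irreducible `f`, by Mertens'
theorem for the prime ideals of degree one.
-/

set_option autoImplicit false

namespace Pool.Agent.Results.MP_8dbee4_ag.PolynomialValues

open Finset

/-- the Hilbert function of the ideal `I` of `ℂ[x_0, …, x_m]` -/
noncomputable def hilbert {m : ℕ} (I : Ideal (MvPolynomial (Fin (m + 1)) ℂ)) (k : ℕ) : ℕ :=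
  Module.finrank ℂ (Submodule.map (Ideal.Quotient.mkₐ ℂ I).toLinearMap
    (MvPolynomial.homogeneousSubmodule (Fin (m + 1)) ℂ k))

/-- `I` is the ideal of an integral curve in `ℙ^m`: a homogeneous prime ideal with `dim ℂ[x] / I = 2` -/
def IsCurve {m : ℕ} (I : Ideal (MvPolynomial (Fin (m + 1)) ℂ)) : Prop :=
  (∀ p ∈ I, ∀ k : ℕ, MvPolynomial.homogeneousComponent k p ∈ I) ∧ I.IsPrime ∧
    ringKrullDim (MvPolynomial (Fin (m + 1)) ℂ ⧸ I) = 2

/-- `Q` divides the degree of the curve `I`: it divides the difference of the values of the Hilbert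
function at `k + 1` and at `k` for all large `k` -/
def DividesDegree {m : ℕ} (Q : ℕ) (I : Ideal (MvPolynomial (Fin (m + 1)) ℂ)) : Prop :=
  ∃ K : ℕ, ∀ k : ℕ, K ≤ k → (Q : ℤ) ∣ (hilbert I (k + 1) : ℤ) - (hilbert I k : ℤ)

/-- The number `Q` divides the degree of every curve on a very general complete intersection of degrees
`d_1, …, d_r` in `ℙ^(n+r)` over `ℂ`: there are countably many nonzero polynomials `bad j` in the
coefficients of `r` forms of these degrees such that for all forms `f_1, …, f_r` at which no `bad j`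
vanishes `Q` divides the degree of every integral curve on `f_1 = ⋯ = f_r = 0`. -/
def DividesCurveDegrees (n r : ℕ) (d : Fin r → ℕ) (Q : ℕ) : Prop :=
  ∃ bad : ℕ → MvPolynomial (Σ i : Fin r, {μ : Fin (n + r + 1) →₀ ℕ // μ.degree = d i}) ℂ,
    (∀ j, bad j ≠ 0) ∧
    ∀ f : Fin r → MvPolynomial (Fin (n + r + 1)) ℂ,
      (∀ i, f i ∈ MvPolynomial.homogeneousSubmodule (Fin (n + r + 1)) ℂ (d i)) →
      (∀ j, MvPolynomial.eval (fun x => MvPolynomial.coeff x.2.1 (f x.1)) (bad j) ≠ 0) →
      ∀ I : Ideal (MvPolynomial (Fin (n + r + 1)) ℂ), IsCurve I → (∀ i, f i ∈ I) →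
        DividesDegree Q I

/-- The tuple `d` contains multiples of the values `f(a + 1), …, f(a + R)` (at different indices `φ(i)`). -/
def Multiples (f : Polynomial ℤ) (a : ℤ) (R : ℕ) {r : ℕ} (d : Fin r → ℕ) : Prop :=
  ∃ φ : Fin R → Fin r, Function.Injective φ ∧ ∀ i : Fin R, f.eval (a + (i : ℕ) + 1) ∣ (d (φ i) : ℤ)

/-- The values of a nonconstant polynomial `f`: for `R ≥ R₀(f, n, c)` and `|a| ≤ R ^ c`, if a tuple of positive degrees
contains multiples of `f(a + 1), …, f(a + R)`, then the degrees of all curves are divisible by a number `Q` with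
`|f(a + 1) ⋯ f(a + R)| ≤ Q ^ M`, `M = M(f, n, c)`. -/
def Values : Prop := ∀ f : Polynomial ℤ, 0 < f.natDegree → ∀ n : ℕ, 1 ≤ n → ∀ c : ℕ, ∃ M R₀ : ℕ,
  ∀ R : ℕ, R₀ ≤ R → ∀ a : ℤ, |a| ≤ (R : ℤ) ^ c → ∀ (r : ℕ) (d : Fin r → ℕ), (∀ i, 0 < d i) → Multiples f a R d →
    ∃ Q : ℕ, 0 < Q ∧ DividesCurveDegrees n r d Q ∧ ∏ i ∈ range R, (f.eval (a + (i : ℕ) + 1)).natAbs ≤ Q ^ M

/-- If `f` has a root modulo every prime factor of `q > 0`, `(2 n - 1) q ≤ R`, and the tuple contains multiples of
`f(a + 1), …, f(a + R)`, then `q` divides the degrees of all curves. -/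
def Divisors : Prop := ∀ (f : Polynomial ℤ) (n : ℕ), 1 ≤ n → ∀ (a : ℤ) (R r : ℕ) (d : Fin r → ℕ), Multiples f a R d →
  ∀ q : ℕ, 0 < q → (2 * n - 1) * q ≤ R → (∀ p : ℕ, p.Prime → p ∣ q → ∃ x : ℤ, (p : ℤ) ∣ f.eval x) →
    DividesCurveDegrees n r d q

/-- the criterion of the starting result, in terms of `D`: `QQ n D` divides the degrees if `D ∣ ∏ d_i` -/
lemma divides_QQ (n r : ℕ) (hn : 1 ≤ n) (d : Fin r → ℕ) (D : ℕ) (hD : D ≠ 0) (h : D ∣ ∏ i, d i) :
    DividesCurveDegrees n r d (Run7.h145.PD.QQ n D) := by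
  obtain ⟨bad, hbad, hmain⟩ := Pool.Agent.Results.MP_8dbee4_ag.AllPrimes.result n r hn d
  refine ⟨bad, hbad, fun f hf hfb I hI hfI => ?_⟩
  refine hmain f hf hfb I hI.1 hI.2.1 hI.2.2 hfI 2 _ le_rfl (Run7.h145.PD.QQ_pos n D) (fun p hp _ => hp.two_le)
    (Or.inl fun p hp hpQ => ?_)
  exact (Run7.h145.PD.crit hD hp hpQ).trans h

/-- the product of the values divides the product of the degrees -/
lemma prod_dvd (f : Polynomial ℤ) (a : ℤ) (R r : ℕ) (d : Fin r → ℕ) (h : Multiples f a R d) :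
    ∏ i ∈ range R, (f.eval (a + (i : ℕ) + 1)).natAbs ∣ ∏ i, d i := by
  obtain ⟨φ, hφ, h⟩ := h
  rw [← Fin.prod_univ_eq_prod_range (fun i : ℕ => (f.eval (a + (i : ℕ) + 1)).natAbs)]
  have h1 : ∏ i : Fin R, (f.eval (a + (i : ℕ) + 1)).natAbs ∣ ∏ i : Fin R, d (φ i) :=
    Finset.prod_dvd_prod_of_dvd _ _ fun i _ => Int.natAbs_dvd_natAbs.2 (h i)
  refine h1.trans ?_
  rw [← Finset.prod_image (f := d) (g := φ) (s := univ) fun i _ j _ hij => hφ hij]
  exact Finset.prod_dvd_prod_of_subset _ _ _ (Finset.subset_univ _)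

theorem values : Values := by
  intro f hf n hn c
  obtain ⟨M, R₀, h⟩ := Run7.h145.PD.values_bound f hf n hn c
  refine ⟨M, R₀, fun R hR a ha r d hd hm => ?_⟩
  have hD : ∏ i, d i ≠ 0 := Finset.prod_ne_zero_iff.2 fun i _ => (hd i).ne'
  exact ⟨Run7.h145.PD.QQ n (∏ i, d i), Run7.h145.PD.QQ_pos _ _, divides_QQ n r hn d _ hD dvd_rfl,
    h R hR a ha _ hD (prod_dvd f a R r d hm)⟩

/-- a root modulo `p` -/
lemma rho_pos (f : Polynomial ℤ) (p : ℕ) (hp : 0 < p) (x : ℤ) (hx : (p : ℤ) ∣ f.eval x) :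
    1 ≤ Pool.Agent.H474R2.PG.rho f p := by
  have h0 : 0 ≤ x % (p : ℤ) := Int.emod_nonneg _ (by exact_mod_cast hp.ne')
  have h1 : x % (p : ℤ) < p := Int.emod_lt_of_pos _ (by exact_mod_cast hp)
  unfold Pool.Agent.H474R2.PG.rho
  refine Finset.card_pos.2 ⟨(x % p).toNat, ?_⟩
  rw [Finset.mem_filter, Finset.mem_range]
  refine ⟨by omega, ?_⟩
  rw [Int.toNat_of_nonneg h0]
  refine (Run7.h145.PD.dvd_eval_congr f p ?_).1 hx
  exact Int.dvd_self_sub_emod

open Classical in
theorem divisors : Divisors := by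
  intro f n hn a R r d hm q hq hR hroot
  obtain ⟨φ, hφ, hd⟩ := hm
  have hR0 : 0 < R := by
    have : 0 < (2 * n - 1) * q := Nat.mul_pos (by omega) hq
    omega
  have hr : 0 < r := Fin.pos (φ ⟨0, hR0⟩)
  obtain ⟨bad, hbad, hmain⟩ := Pool.Agent.Results.MP_8dbee4_ag.AllPrimes.result n r hn d
  refine ⟨bad, hbad, fun F hF hFb I hI hFI => ?_⟩
  have hlt : ∀ (c : Fin (2 * n - 1)) (i : Fin q), (c : ℕ) * q + i < R := by
    intro c i
    have h1 : ((c : ℕ) + 1) * q ≤ (2 * n - 1) * q := Nat.mul_le_mul_right _ c.2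
    have h2 := i.2
    nlinarith
  have hinj : ∀ (c : Fin (2 * n - 1)) (i : Fin q) (c' : Fin (2 * n - 1)) (i' : Fin q),
      φ ⟨c * q + i, hlt c i⟩ = φ ⟨c' * q + i', hlt c' i'⟩ → c = c' ∧ i = i' := by
    intro c i c' i' h
    have h := hφ h
    simp only [Fin.mk.injEq] at h
    have h1 : (c : ℕ) = c' := by
      have e1 : ((c : ℕ) * q + i) / q = c := by
        rw [Nat.mul_comm, Nat.mul_add_div hq, Nat.div_eq_of_lt i.2, Nat.add_zero]
      have e2 : ((c' : ℕ) * q + i') / q = c' := by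
        rw [Nat.mul_comm, Nat.mul_add_div hq, Nat.div_eq_of_lt i'.2, Nat.add_zero]
      rw [← e1, h, e2]
    have h2 : c = c' := Fin.ext h1
    subst h2
    exact ⟨rfl, Fin.ext (by omega)⟩
  refine hmain F hF hFb I hI.1 hI.2.1 hI.2.2 hFI 2 q le_rfl hq (fun p hp _ => hp.two_le)
    (Or.inr (Or.inl ⟨2 * n - 1, n + 1, fun _ => 0, fun _ => ⟨0, hr⟩,
      fun j => if h : ∃ x : Fin (2 * n - 1) × Fin q, φ ⟨x.1 * q + x.2, hlt x.1 x.2⟩ = j then some h.choose.1 else none,
      by omega, by omega, by simp, fun b hb => absurd rfl hb, fun b b' hb => absurd rfl hb, fun c => ?_⟩))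
  have h1 : q ∣ ∏ i : Fin q, (f.eval ((a + (c : ℕ) * q) + (i : ℕ) + 1)).natAbs := by
    have := Run7.h145.PD.dvd_block f q hq (fun p hp hpq => by
      obtain ⟨x, hx⟩ := hroot p hp hpq
      exact rho_pos f p hp.pos x hx) (a + (c : ℕ) * q)
    rwa [← Fin.prod_univ_eq_prod_range (fun i : ℕ => (f.eval (a + (c : ℕ) * q + (i : ℕ) + 1)).natAbs)] at this
  have h2 : ∏ i : Fin q, (f.eval ((a + (c : ℕ) * q) + (i : ℕ) + 1)).natAbs ∣
      ∏ i : Fin q, d (φ ⟨c * q + i, hlt c i⟩) := by
    refine Finset.prod_dvd_prod_of_dvd _ _ fun i _ => ?_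
    have h3 := hd ⟨c * q + i, hlt c i⟩
    have e : a + (((c : ℕ) * q + (i : ℕ) : ℕ) : ℤ) + 1 = a + (c : ℕ) * (q : ℤ) + (i : ℕ) + 1 := by
      push_cast; ring
    rw [e] at h3
    exact Int.natAbs_dvd_natAbs.2 h3
  refine h1.trans (h2.trans ?_)
  have e1 : ∏ i : Fin q, d (φ ⟨c * q + i, hlt c i⟩) =
      ∏ j ∈ univ.image (fun i : Fin q => φ ⟨c * q + i, hlt c i⟩), d j :=
    (Finset.prod_image fun i _ i' _ h => (hinj c i c i' h).2).symm
  rw [e1]
  refine Finset.prod_dvd_prod_of_subset _ _ _ ?_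
  intro x hx
  obtain ⟨i, _, rfl⟩ := mem_image.1 hx
  rw [mem_filter]
  refine ⟨mem_univ _, ?_⟩
  have hex : ∃ x : Fin (2 * n - 1) × Fin q, φ ⟨x.1 * q + x.2, hlt x.1 x.2⟩ = φ ⟨c * q + i, hlt c i⟩ := ⟨(c, i), rfl⟩
  show (if h : ∃ x : Fin (2 * n - 1) × Fin q, φ ⟨x.1 * q + x.2, hlt x.1 x.2⟩ = φ ⟨c * q + i, hlt c i⟩ then
    some h.choose.1 else none) = some c
  rw [dif_pos hex]
  rw [(hinj _ _ _ _ hex.choose_spec).1]

/-- **Curves on very general complete intersections whose degrees are multiples of consecutive values of a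
polynomial.** -/
theorem result : Values ∧ Divisors := ⟨values, divisors⟩

end Pool.Agent.Results.MP_8dbee4_ag.PolynomialValues
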